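import Pool.Agent.H309.DP.FinTr

/-!
# Controllability to the trajectories which are polynomial in the spanwise variable

The target trajectory is `V = Vs + (∑ i ≤ m, (x 2) ^ i * c i (t, x 1), 0, 0)`: an arbitrary shear
trajectory `Vs` plus an arbitrary solution, polynomial in `x 2` and vanishing on the plates, of the
equation `∂ₜ A + (Vs)₂ ∂₂ A = Δ A`; it solves the Navier-Stokes equations and is not parallel in
general. The initial velocity is an arbitrary
`(∑ i ≤ n, (x 2) ^ i * P i (x 1), 0, Q (x 1))` with square integrable profiles. For each `T > 0` there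
is a classical solution of the Navier-Stokes equations between the plates `x 1 = ± a` which starts at
this velocity, equals `V` on the plates (`0` if `Vs` vanishes there) and equals `V` everywhere from
time `T` on; only the lateral boundary of the box is controlled.
-/

set_option autoImplicit false

open Set MeasureTheory

namespace Pool.Agent.Results.MP_8f4382_an.SpanwiseTrajectories

open Pool.Agent.H309.DF Pool.Agent.H309.DG Pool.Agent.H309.DP

theorem result {a b T : ℝ} (ha : 0 < a) (hb : 0 < b) (hT : 0 < T)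
    -- the initial velocity
    (n : ℕ) {P : ℕ → ℝ → ℝ} {Q : ℝ → ℝ}
    (hP : ∀ i, i ≤ n → MemLp (P i) 2 (volume.restrict (Icc (-a) a)))
    (hQ : MemLp Q 2 (volume.restrict (Icc (-a) a)))
    -- the target trajectory
    {Vs : ℝ → ℝ → EuclideanSpace ℝ (Fin 3)} {G : ℝ → EuclideanSpace ℝ (Fin 3)}
    (hV : Shear a Vs G) (m : ℕ) {C : ℕ → ℝ → ℝ} {c ct cy cyy : ℕ → ℝ → ℝ → ℝ}
    (hC : ∀ i, MemLp (C i) 2 (volume.restrict (Icc (-a) a)))
    (hc : PolyT a m (fun t y => Vs t y 2) C c ct cy cyy) :
    ∃ (u : ℝ → EuclideanSpace ℝ (Fin 3) → EuclideanSpace ℝ (Fin 3))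
      (p : ℝ → EuclideanSpace ℝ (Fin 3) → ℝ),
      SteerT a b T
        (fun x => vec (∑ i ∈ Finset.range (n + 1), x 2 ^ i * P i (x 1)) (Q (x 1)))
        (fun t x => Vs t (x 1) + vec (∑ i ∈ Finset.range (m + 1), x 2 ^ i * c i t (x 1)) 0)
        G u p := by
  have h0 := steer_tr a b T ha hb hT n (fun i => if i ≤ n then P i else fun _ => 0) Q
    (fun i => by
      by_cases hi : i ≤ n
      · simpa [hi] using hP i hi
      · simp [hi]) hQ Vs G hV m C c ct cy cyy hC hc
  have e : (fun x : EuclideanSpace ℝ (Fin 3) =>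
        vec (∑ i ∈ Finset.range (n + 1),
          x 2 ^ i * (fun i => if i ≤ n then P i else fun _ => 0) i (x 1)) (Q (x 1))) =
      fun x => vec (∑ i ∈ Finset.range (n + 1), x 2 ^ i * P i (x 1)) (Q (x 1)) := by
    funext x
    congr 1
    refine Finset.sum_congr rfl fun i hi => ?_
    have hi' : i ≤ n := Nat.lt_succ_iff.mp (Finset.mem_range.mp hi)
    simp [hi']
  rw [← e]
  exact h0

end Pool.Agent.Results.MP_8f4382_an.SpanwiseTrajectories
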